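import Pool.Agent.NH62.Thu.Fin

set_option autoImplicit false

/-!
# MP_89829e_an: smooth models of expanding Thurston maps

There is an expanding Thurston map `f` of the 2-sphere which is not topologically conjugate to any
map `g` of the Riemann sphere of class `C¹` (in particular to no `C^∞` expanding Thurston map).
The example is the map of degree six given by the barycentric subdivision of the double of a
triangle; a vertex is a fixed critical point of `f`. At a fixed point which is a critical point a
`C¹` map has derivative zero, so the fixed point attracts all nearby points, while the fixed
vertex of `f` is repelling.
-/

namespace Pool.Agent.Results.MP_89829e_an.SmoothModelsFail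

open Pool.Agent.NH62.Thu

/-- There is an expanding Thurston map `f` of the 2-sphere such that no map `g` of the Riemann
sphere of class `C¹` is topologically conjugate to `f`. -/
theorem result : ∃ f : Sph → Sph, IsThurston f ∧ IsExpanding f ∧
    ∀ g : Sph → Sph, IsCk 1 g → ¬ TopConj f g :=
  exists_not_smooth

end Pool.Agent.Results.MP_89829e_an.SmoothModelsFail
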